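import Pool.Agent.NH76.LT.Tail
import Pool.Agent.W85.Leh.Final
import Pool.Agent.H95R2.Leh.Tot

set_option autoImplicit false

/-!
# `m / φ(m)` is at most `C log (ω(m) + 2)`, and the bounds for Lehmer numbers
-/

namespace Pool.Agent.NH76.LT

open Finset Pool.Agent.NH3.LT

theorem tot_omega : ∃ C : ℝ, 1 ≤ C ∧ ∀ n : ℕ, 1 ≤ n →
    (n : ℝ) / Nat.totient n ≤ C * Real.log ((n.primeFactors.card : ℝ) + 2) := by
  obtain ⟨C, hC0, hC⟩ := Pool.Agent.Helper923.HMertens.mertens_ratio
  have hl2 : (0 : ℝ) < Real.log 2 := Real.log_pos (by norm_num)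
  refine ⟨Real.exp (1 + (1 / 2 + C / Real.log 2 + 1)) / Real.log 2 + 1, by
    have : 0 < Real.exp (1 + (1 / 2 + C / Real.log 2 + 1)) / Real.log 2 := by positivity
    linarith, fun n hn => ?_⟩
  have hn0 : (0 : ℝ) < n := by exact_mod_cast hn
  set m : ℕ := n.primeFactors.card + 2 with hm
  have hm2 : 2 ≤ m := by omega
  have hmR : ((n.primeFactors.card : ℝ) + 2) = (m : ℝ) := by rw [hm]; push_cast; ring
  have hm0 : (0 : ℝ) < m := by positivity
  have hlogm0 : 0 < Real.log m := Real.log_pos (by exact_mod_cast (by omega : 1 < m))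
  rw [hmR]
  -- the product
  have h1 : (n : ℝ) / Nat.totient n ≤ Real.exp (∑ p ∈ n.primeFactors, (1 : ℝ) / ((p : ℝ) - 1)) := by
    rw [ratio_eq hn, Real.exp_sum]
    refine Finset.prod_le_prod (fun p hp => ?_) (fun p hp => ?_)
    · have := fac_ge (Nat.prime_of_mem_primeFactors hp).two_le
      linarith
    · exact fac_le_exp (Nat.prime_of_mem_primeFactors hp).two_le
  have h2 : ∑ p ∈ n.primeFactors, (1 : ℝ) / ((p : ℝ) - 1) =
      ∑ p ∈ n.primeFactors, (1 : ℝ) / ((p : ℝ) * ((p : ℝ) - 1)) +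
        ∑ p ∈ n.primeFactors, (1 : ℝ) / p := by
    rw [← Finset.sum_add_distrib]
    refine Finset.sum_congr rfl fun p hp => ?_
    have : (1 : ℝ) < p := by exact_mod_cast (Nat.prime_of_mem_primeFactors hp).one_lt
    have h0 : (p : ℝ) - 1 ≠ 0 := by linarith
    have h0' : (p : ℝ) ≠ 0 := by linarith
    field_simp
    ring
  have h3 : ∑ p ∈ n.primeFactors, (1 : ℝ) / ((p : ℝ) * ((p : ℝ) - 1)) ≤ 1 := by
    have h4 : ∑ p ∈ n.primeFactors, (1 : ℝ) / ((p : ℝ) * ((p : ℝ) - 1)) ≤
        ∑ j ∈ Finset.Ioc 1 n, (1 : ℝ) / ((j : ℝ) * ((j : ℝ) - 1)) := by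
      refine Finset.sum_le_sum_of_subset_of_nonneg (fun p hp => ?_) (fun j hj _ => ?_)
      · have h5 := Nat.prime_of_mem_primeFactors hp
        exact Finset.mem_Ioc.2 ⟨h5.one_lt, Nat.le_of_dvd hn (Nat.dvd_of_mem_primeFactors hp)⟩
      · have h5 : (1 : ℝ) < j := by exact_mod_cast (Finset.mem_Ioc.1 hj).1
        have h6 : (0 : ℝ) < j - 1 := by linarith
        positivity
    have h5 := Pool.Agent.H95R2.Leh.Tot.tele n hn
    have h6 : (0 : ℝ) < 1 / n := by positivity
    linarith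
  -- primes above `m`
  have h4 : ∑ p ∈ n.primeFactors, (1 : ℝ) / p ≤ (1 / 2 + (Real.log (Real.log m / Real.log 2) +
      C / Real.log 2)) + 1 := by
    rw [← Finset.sum_filter_add_sum_filter_not n.primeFactors (fun p => p ≤ m)]
    refine add_le_add ?_ ?_
    · have h5 : ∑ p ∈ n.primeFactors.filter (fun p => p ≤ m), (1 : ℝ) / p ≤
          1 / 2 + ∑ p ∈ (Finset.Ioc 2 m).filter Nat.Prime, (1 : ℝ) / p := by
        have h6 : n.primeFactors.filter (fun p => p ≤ m) ⊆
            insert 2 ((Finset.Ioc 2 m).filter Nat.Prime) := by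
          intro p hp
          rw [Finset.mem_filter] at hp
          have h7 := Nat.prime_of_mem_primeFactors hp.1
          rw [Finset.mem_insert, Finset.mem_filter, Finset.mem_Ioc]
          rcases eq_or_lt_of_le h7.two_le with h8 | h8
          · left; exact h8.symm
          · right; exact ⟨⟨h8, hp.2⟩, h7⟩
        refine (Finset.sum_le_sum_of_subset_of_nonneg h6 (fun j _ _ => by positivity)).trans ?_
        rw [Finset.sum_insert (by simp)]
        norm_num
      have h6 := (abs_le.1 (hC 2 m le_rfl hm2)).2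
      push_cast at h6
      linarith
    · have h5 : ∑ p ∈ n.primeFactors.filter (fun p => ¬ p ≤ m), (1 : ℝ) / p ≤
          ∑ _p ∈ n.primeFactors.filter (fun p => ¬ p ≤ m), (1 : ℝ) / m := by
        refine Finset.sum_le_sum fun p hp => ?_
        rw [Finset.mem_filter] at hp
        have h6 : (m : ℝ) ≤ p := by exact_mod_cast (not_le.1 hp.2).le
        exact one_div_le_one_div_of_le hm0 h6
      refine h5.trans ?_
      rw [Finset.sum_const, nsmul_eq_mul]
      have h6 : (((n.primeFactors.filter (fun p => ¬ p ≤ m)).card : ℕ) : ℝ) ≤ n.primeFactors.card := by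
        exact_mod_cast Finset.card_filter_le _ _
      rw [mul_one_div, div_le_iff₀ hm0]
      linarith
  have h5 : ∑ p ∈ n.primeFactors, (1 : ℝ) / ((p : ℝ) - 1) ≤
      (1 + (1 / 2 + C / Real.log 2 + 1)) + Real.log (Real.log m / Real.log 2) := by
    rw [h2]; linarith
  have h6 := h1.trans (Real.exp_le_exp.2 h5)
  rw [Real.exp_add, Real.exp_log (by positivity)] at h6
  have hE := Real.exp_pos (1 + (1 / 2 + C / Real.log 2 + 1))
  set E := Real.exp (1 + (1 / 2 + C / Real.log 2 + 1)) with hEdef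
  calc (n : ℝ) / Nat.totient n ≤ E * (Real.log m / Real.log 2) := h6
    _ = E / Real.log 2 * Real.log m := by ring
    _ ≤ (E / Real.log 2 + 1) * Real.log m := by
        refine mul_le_mul_of_nonneg_right (by linarith) hlogm0.le

open Pool.Agent.H95R2.Leh in
/-- the two bounds for Lehmer numbers -/
theorem leh_exp : ∃ c : ℝ, 0 < c ∧ ∀ n k : ℕ, Leh n → n - 1 = k * n.totient →
    c * Real.exp (c * k) * Real.log (n.minFac : ℝ) ≤ ((n - 1 : ℕ) : ℝ) / (n - 1).totient ∧
      (n.minFac : ℝ) ^ (c * Real.exp (c * k)) ≤ (n - 1).primeFactors.card := by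
  obtain ⟨F, hF, hr⟩ := ratio_main
  obtain ⟨c₀, hc₀, hlow⟩ := rho_low
  obtain ⟨C, hC, ho⟩ := tot_omega
  obtain ⟨c₁, hc₁⟩ : ∃ c₁ : ℝ, c₁ = min c₀ 1 / (12 * C) := ⟨_, rfl⟩
  have hc₁0 : 0 < c₁ := by rw [hc₁]; positivity
  obtain ⟨c, hc⟩ : ∃ c : ℝ, c = min c₁ (1 / F) := ⟨_, rfl⟩
  have hc0 : 0 < c := by rw [hc]; positivity
  refine ⟨c, hc0, ?_⟩
  intro n k hL hk
  obtain ⟨hn, hcp, hd⟩ := hL
  have hL : Leh n := ⟨hn, hcp, hd⟩
  have hodd := (leh_basic hL).2.1
  have h2 : 2 ∣ n - 1 := by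
    obtain ⟨t, ht⟩ := hodd
    exact ⟨t, by omega⟩
  have hn2 : 2 < n := by
    rcases Nat.lt_or_ge 2 n with h | h
    · exact h
    · exfalso
      have : n = 2 := by omega
      exact hcp (this ▸ Nat.prime_two)
  have hp1 : ∀ p ∈ n.primeFactors, p - 1 ∣ n - 1 := by
    intro p hp
    have h3 := Nat.totient_dvd_of_dvd (Nat.dvd_of_mem_primeFactors hp)
    rw [Nat.totient_prime (Nat.prime_of_mem_primeFactors hp)] at h3
    exact h3.trans hd
  have h1 := hr n hn2 h2 hp1
  have h3 := ratio_gt hL hk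
  have h4 := ho (n - 1) (by omega)
  have h5 := Pool.Agent.W85.Leh.four n hn hcp hd
  have hk2 : (2 : ℝ) ≤ k := by
    obtain ⟨k', hk'2, hk', -⟩ := leh_k hL
    have htot : 0 < n.totient := Nat.totient_pos.2 (by omega)
    have : k = k' := Nat.eq_of_mul_eq_mul_right htot (hk.symm.trans hk')
    rw [this]
    exact_mod_cast hk'2
  have h6 := hlow n hn2 h2 hp1 (hk2.trans h3.le)
  obtain ⟨ρ, hρ⟩ : ∃ ρ : ℝ, ρ = ((n - 1 : ℕ) : ℝ) / (n - 1).totient := ⟨_, rfl⟩
  obtain ⟨w, hw⟩ : ∃ w : ℕ, w = (n - 1).primeFactors.card := ⟨_, rfl⟩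
  rw [← hρ] at h1 h4 h6 ⊢
  rw [← hw] at h4 h5 ⊢
  have hρ2 : 2 ≤ ρ := by rw [hρ]; exact ratio_ge_two (by omega) h2
  have hw4 : (4 : ℝ) ≤ w := by exact_mod_cast h5
  have hk0 : (0 : ℝ) ≤ k := Nat.cast_nonneg k
  set p := n.minFac with hp
  have hpp : p.Prime := Nat.minFac_prime (by omega)
  have hp2 := hpp.two_le
  have hp2' : (2 : ℝ) ≤ p := by exact_mod_cast hp2
  have hlp : 0 < Real.log p := Real.log_pos (by linarith)
  obtain ⟨t, ht⟩ : ∃ t : ℝ, t = ρ / Real.log p := ⟨_, rfl⟩
  rw [← ht] at h1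
  have ht0 : 0 < t := by rw [ht]; positivity
  have hρt : ρ = t * Real.log p := by rw [ht]; field_simp
  have htc : c₀ ≤ t := by
    rw [ht, le_div_iff₀ hlp]
    exact h6
  -- the main inequality
  have hkey : min c₀ 1 / 6 * Real.exp (k / F) ≤ t := by
    have h7 : (k : ℝ) / F ≤ 1 + Real.log (1 + t) := by
      rw [div_le_iff₀ (by linarith)]
      linarith
    have h8 : Real.exp (k / F) ≤ 3 * (1 + t) := by
      calc Real.exp (k / F) ≤ Real.exp (1 + Real.log (1 + t)) := Real.exp_le_exp.2 h7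
        _ = Real.exp 1 * (1 + t) := by rw [Real.exp_add, Real.exp_log (by linarith)]
        _ ≤ 3 * (1 + t) := by
            have := Real.exp_one_lt_d9
            nlinarith
    have hm0 : 0 < min c₀ 1 := by positivity
    rcases le_total 1 t with h9 | h9
    · have h10 : min c₀ 1 ≤ 1 := min_le_right _ _
      have h11 : Real.exp (k / F) ≤ 6 * t := by linarith
      have h12 := Real.exp_pos ((k : ℝ) / F)
      nlinarith
    · have h10 : min c₀ 1 ≤ t := (min_le_left _ _).trans htc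
      have h11 : Real.exp (k / F) ≤ 6 := by linarith
      nlinarith
  have hexp : Real.exp (c * k) ≤ Real.exp (k / F) := by
    apply Real.exp_le_exp.2
    have h7 : c ≤ 1 / F := by rw [hc]; exact min_le_right _ _
    calc c * (k : ℝ) ≤ 1 / F * k := mul_le_mul_of_nonneg_right h7 hk0
      _ = k / F := by ring
  have hcc : c ≤ min c₀ 1 / (12 * C) := by rw [hc, hc₁]; exact min_le_left _ _
  have hm0 : 0 < min c₀ 1 := by positivity
  have hkey2 : 2 * C * (c * Real.exp (c * k)) ≤ t := by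
    refine le_trans ?_ hkey
    calc 2 * C * (c * Real.exp (c * k)) ≤ 2 * C * (min c₀ 1 / (12 * C) * Real.exp (k / F)) := by
          apply mul_le_mul_of_nonneg_left _ (by linarith)
          exact mul_le_mul hcc hexp (Real.exp_pos _).le (by positivity)
      _ = min c₀ 1 / 6 * Real.exp (k / F) := by
          field_simp
          ring
  have hce : 0 < c * Real.exp (c * k) := by positivity
  refine ⟨?_, ?_⟩
  · rw [hρt]
    apply mul_le_mul_of_nonneg_right _ hlp.le
    nlinarith
  · have hlogw0 : 0 < Real.log w := Real.log_pos (by linarith)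
    have hlw : Real.log ((w : ℝ) + 2) ≤ 2 * Real.log w := by
      have h7 : Real.log ((w : ℝ) + 2) ≤ Real.log ((w : ℝ) ^ 2) :=
        Real.log_le_log (by linarith) (by nlinarith)
      rwa [Real.log_pow] at h7
    have h7 : ρ ≤ 2 * C * Real.log w := by
      refine h4.trans ?_
      nlinarith
    have h8 : c * Real.exp (c * k) * Real.log p ≤ Real.log w := by
      have h9 : 2 * C * (c * Real.exp (c * k)) * Real.log p ≤ 2 * C * Real.log w := by
        refine (mul_le_mul_of_nonneg_right hkey2 hlp.le).trans ?_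
        rw [← hρt]
        exact h7
      have h10 : 2 * C * (c * Real.exp (c * k) * Real.log p) ≤ 2 * C * Real.log w := by
        linarith
      exact le_of_mul_le_mul_left h10 (by linarith)
    rw [Real.rpow_def_of_pos (by linarith)]
    calc Real.exp (Real.log p * (c * Real.exp (c * k))) ≤ Real.exp (Real.log w) := by
          apply Real.exp_le_exp.2
          linarith
      _ = w := Real.exp_log (by linarith)

end Pool.Agent.NH76.LT
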