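import Pool.Agent.NH3.LT.IX2
import Pool.Prelude.Def_F_72ad9e24

set_option autoImplicit false

/-!
# Primes in a set `A` without congruences `p = 1 (mod q)`, `q` in a set `S`
-/

namespace Pool.Agent.NH76.LT

open Finset Pool.Agent.Helper403 Pool.Agent.NH3.LT

/-- a set `A` of primes without `p = 1 (mod q)` for the odd primes `q` of `S` -/
structure FreeS (A S : Finset ℕ) : Prop where
  pa : ∀ p ∈ A, p.Prime
  ps : ∀ q ∈ S, q.Prime ∧ 2 < q
  fr : ∀ p ∈ A, ∀ q ∈ S, ¬ q ∣ p - 1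

theorem PiS_ge_one {S : Finset ℕ} (hS : ∀ q ∈ S, q.Prime ∧ 2 < q) (w : ℕ) : 1 ≤ PiQ S w := by
  unfold PiQ
  apply Finset.one_le_prod
  intro p hp
  exact fac_ge ((hS p (mem_filter.1 hp).1).1.two_le)

theorem PiS_le {S : Finset ℕ} (hS : ∀ q ∈ S, q.Prime ∧ 2 < q) (w : ℕ) (hw : 1 ≤ w) :
    PiQ S w ≤ w := by
  rw [← telescope w hw]
  unfold PiQ
  apply Finset.prod_le_prod_of_subset_of_one_le
  · intro p hp
    rw [mem_filter] at hp
    rw [mem_Icc]
    exact ⟨(hS p hp.1).1.two_le, hp.2⟩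
  · intro p hp
    have := fac_ge ((hS p (mem_filter.1 hp).1).1.two_le)
    linarith
  · intro p hp _
    exact fac_ge (mem_Icc.1 hp).1

theorem nu_badS {Q : Finset ℕ} (hQ : ∀ q ∈ Q, q.Prime ∧ 2 < q) {l : ℕ} (hl : l.Prime) :
    nu (bad Q) l = if l ∈ Q then 2 else 1 := by
  classical
  unfold nu
  split_ifs with h
  · have h2 := (hQ l h).2
    rw [← Finset.card_pair (show (0 : ℕ) ≠ 1 by norm_num)]
    congr 1
    ext t
    rw [mem_filter, mem_range, mem_insert, mem_singleton]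
    unfold bad
    constructor
    · rintro ⟨h3, h4⟩
      rcases h4 with h4 | ⟨_, h4⟩
      · left
        exact Nat.eq_zero_of_dvd_of_lt h4 h3
      · right
        rwa [Nat.mod_eq_of_lt h3] at h4
    · rintro (rfl | rfl)
      · exact ⟨hl.pos, Or.inl (dvd_zero l)⟩
      · exact ⟨hl.one_lt, Or.inr ⟨h, Nat.mod_eq_of_lt hl.one_lt⟩⟩
  · rw [← Finset.card_singleton (0 : ℕ)]
    congr 1
    ext t
    rw [mem_filter, mem_range, mem_singleton]
    unfold bad
    constructor
    · rintro ⟨h3, h4⟩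
      rcases h4 with h4 | ⟨h5, _⟩
      · exact Nat.eq_zero_of_dvd_of_lt h4 h3
      · exact absurd h5 h
    · rintro rfl
      exact ⟨hl.pos, Or.inl (dvd_zero l)⟩

theorem sieve_countS : ∃ (C : ℝ) (B : ℕ), 1 ≤ C ∧ 1 ≤ B ∧ ∀ A₀ Q : Finset ℕ, FreeS A₀ Q → ∀ i : ℕ, B ≤ i →
    ((A₀.filter (fun p => 2 ^ (i - 1) < p ∧ p ≤ 2 ^ i)).card : ℝ) ≤
      C * 2 ^ i / (i * PiQ Q (2 ^ (i / B))) := by
  classical
  obtain ⟨A, hA1, hA⟩ := G_lower
  obtain ⟨a, ha⟩ : ∃ a : ℕ, a = ⌈A⌉₊ := ⟨_, rfl⟩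
  have haA : A ≤ a := by rw [ha]; exact Nat.le_ceil A
  have ha1 : 1 ≤ a := by
    have : (1 : ℝ) ≤ a := hA1.trans haA
    exact_mod_cast this
  refine ⟨160 * a + 4, 10 * a, by
    have : (1 : ℝ) ≤ a := hA1.trans haA
    linarith, by omega, ?_⟩
  intro A₀ Q hAQ i hi
  have hQ := hAQ.ps
  have hiR : (0 : ℝ) < i := by
    have : 0 < i := by omega
    exact_mod_cast this
  obtain ⟨w, hw⟩ : ∃ w : ℕ, w = 2 ^ (i / (10 * a)) := ⟨_, rfl⟩
  obtain ⟨z, hz⟩ : ∃ z : ℕ, z = 2 ^ (i / 10) := ⟨_, rfl⟩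
  have hj1 : 1 ≤ i / (10 * a) := (Nat.one_le_div_iff (by omega)).2 hi
  have hw2 : 2 ≤ w := by
    rw [hw]
    calc 2 = 2 ^ 1 := by norm_num
      _ ≤ 2 ^ (i / (10 * a)) := Nat.pow_le_pow_right (by norm_num) hj1
  have hl2 : 0 < Real.log 2 := Real.log_pos (by norm_num)
  have hlogw : Real.log w = (i / (10 * a) : ℕ) * Real.log 2 := by
    rw [hw]; push_cast; rw [Real.log_pow]
  have hlogz : Real.log z = (i / 10 : ℕ) * Real.log 2 := by
    rw [hz]; push_cast; rw [Real.log_pow]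
  have hjz : a * (i / (10 * a)) ≤ i / 10 := by
    rw [← Nat.div_div_eq_div_mul]
    exact Nat.mul_div_le _ _
  have hAz : A * Real.log w ≤ Real.log z := by
    rw [hlogw, hlogz, ← mul_assoc]
    apply mul_le_mul_of_nonneg_right _ hl2.le
    calc A * ((i / (10 * a) : ℕ) : ℝ) ≤ a * ((i / (10 * a) : ℕ) : ℝ) :=
          mul_le_mul_of_nonneg_right haA (Nat.cast_nonneg _)
      _ ≤ ((i / 10 : ℕ) : ℝ) := by exact_mod_cast hjz
  rw [← hw]
  obtain ⟨ν, hν⟩ : ∃ ν : ℕ → ℝ, ν = fun p => if p ∈ Q then 2 else 1 := ⟨_, rfl⟩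
  have hνp : ∀ p, p.Prime → 0 ≤ ν p ∧ ν p ≤ 2 ∧ ν p < p := by
    intro p hp
    rw [hν]
    simp only
    split_ifs with h
    · have := (hQ p h).2
      refine ⟨by norm_num, le_rfl, by exact_mod_cast this⟩
    · refine ⟨by norm_num, by norm_num, by exact_mod_cast hp.one_lt⟩
  have hG := hA w z ν hw2 hAz hνp
  have hνn : ∀ p, p.Prime → ((nu (bad Q) p : ℕ) : ℝ) = ν p := by
    intro p hp
    rw [nu_badS hQ hp, hν]
    simp only
    split_ifs <;> norm_num
  have hGE : ∑ t ∈ (PP w).powerset.filter (fun t => (∏ p ∈ t, p) ≤ z), ∏ p ∈ t, (ν p / (p - ν p)) =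
      ∑ e ∈ EE w z, Hw (bad Q) e := by
    rw [sum_EE]
    apply sum_congr rfl
    intro t ht
    rw [mem_filter, mem_powerset] at ht
    apply prod_congr rfl
    intro p hp
    rw [hνn p (mem_PP.1 (ht.1 hp)).2]
  rw [hGE] at hG
  -- the lower bound for G
  have hPi1 := PiS_ge_one hQ w
  have hGlow : 1 / 2 * (Real.log w * PiQ Q w) ≤ ∑ e ∈ EE w z, Hw (bad Q) e := by
    refine le_trans ?_ hG
    apply mul_le_mul_of_nonneg_left _ (by norm_num)
    calc Real.log w * PiQ Q w ≤ (∏ p ∈ PP w, (1 - 1 / (p : ℝ))⁻¹) * PiQ Q w :=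
          mul_le_mul_of_nonneg_right (mert_lower w (by omega)) (by linarith)
      _ = (∏ p ∈ PP w, (1 - 1 / (p : ℝ))⁻¹) *
          ∏ p ∈ PP w, (if p ∈ Q then (1 - 1 / (p : ℝ))⁻¹ else 1) := by
          congr 1
          unfold PiQ
          rw [prod_ite, prod_const_one, mul_one]
          apply prod_congr _ (fun _ _ => rfl)
          ext p
          rw [mem_filter, mem_filter, mem_PP]
          exact ⟨fun h => ⟨⟨h.2, (hQ p h.1).1⟩, h.1⟩, fun h => ⟨h.2, h.1.1⟩⟩
      _ = ∏ p ∈ PP w, ((1 - 1 / (p : ℝ))⁻¹ * (if p ∈ Q then (1 - 1 / (p : ℝ))⁻¹ else 1)) := by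
          rw [prod_mul_distrib]
      _ ≤ ∏ p ∈ PP w, (1 - ν p / p)⁻¹ := by
          apply prod_le_prod
          · intro p hp
            have h1 := fac_ge (mem_PP.1 hp).2.two_le
            split_ifs
            · nlinarith
            · linarith
          · intro p hp
            have hp2 : (2 : ℝ) ≤ p := by exact_mod_cast (mem_PP.1 hp).2.two_le
            rw [hν]
            simp only
            split_ifs with h
            · have h3 : (3 : ℝ) ≤ p := by exact_mod_cast (hQ p h).2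
              have h4 : 2 / (p : ℝ) ≤ 2 / 3 := by gcongr
              have h5 : 0 < 1 - 2 / (p : ℝ) := by linarith
              rw [← mul_inv]
              apply inv_anti₀ h5
              have : (1 - 1 / (p : ℝ)) * (1 - 1 / (p : ℝ)) = 1 - 2 / p + (1 / (p : ℝ)) ^ 2 := by ring
              rw [this]
              have := sq_nonneg (1 / (p : ℝ))
              linarith
            · rw [mul_one]
  have hlogw_low : (i : ℝ) / (20 * a) * Real.log 2 ≤ Real.log w := by
    rw [hlogw]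
    apply mul_le_mul_of_nonneg_right _ hl2.le
    have haR : (1 : ℝ) ≤ a := by exact_mod_cast ha1
    rw [div_le_iff₀ (by linarith)]
    have h1 : i < (i / (10 * a) + 1) * (10 * a) := by
      have := Nat.lt_succ_iff.2 (le_refl (i / (10 * a)))
      exact (Nat.div_lt_iff_lt_mul (by omega)).1 this
    have h2 : i ≤ (i / (10 * a)) * (20 * a) := by
      obtain ⟨u, hu⟩ : ∃ u, u = i / (10 * a) := ⟨_, rfl⟩
      rw [← hu] at h1 hj1 ⊢
      nlinarith
    exact_mod_cast h2
  have hlow : 0 < Real.log w := by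
    apply Real.log_pos
    have : (2 : ℝ) ≤ w := by exact_mod_cast hw2
    linarith
  -- sieve data
  have hD : SieveData (bad Q) (EE w z) z := by
    constructor
    · exact fun e he => (mem_EE he).1
    · exact fun e he => (mem_EE he).2.1
    · intro e he l _ t
      unfold bad
      rw [Nat.dvd_add_self_right, Nat.add_mod_right]
    · intro e he l hl
      rw [nu_badS hQ (Nat.prime_of_mem_primeFactors hl)]
      split_ifs <;> norm_num
    · intro e he l hl
      have hlp := Nat.prime_of_mem_primeFactors hl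
      rw [nu_badS hQ hlp]
      split_ifs with h
      · exact (hQ l h).2
      · exact hlp.one_lt
  have hne : (EE w z).Nonempty := by
    refine ⟨1, ?_⟩
    unfold EE
    rw [mem_image]
    refine ⟨∅, ?_, by simp⟩
    rw [mem_filter, mem_powerset]
    refine ⟨empty_subset _, ?_⟩
    rw [prod_empty, hz]
    exact Nat.one_le_two_pow
  have hzi : z ≤ 2 ^ (i - 1) := by
    rw [hz]
    apply Nat.pow_le_pow_right (by norm_num)
    omega
  have hsb := sieve_bound hD (2 ^ i + 1) (A₀.filter (fun p => 2 ^ (i - 1) < p ∧ p ≤ 2 ^ i))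
    (by
      intro p hp
      rw [mem_filter] at hp
      rw [mem_range]
      omega)
    (by
      intro t ht e he l hl hb
      rw [mem_filter] at ht
      have hle : l ≤ z := (Nat.le_of_dvd (Nat.pos_of_ne_zero (mem_EE he).1.ne_zero)
        (Nat.dvd_of_mem_primeFactors hl)).trans (mem_EE he).2.1
      have hlp := Nat.prime_of_mem_primeFactors hl
      have htp := hAQ.pa t ht.1
      rcases hb with hb | ⟨hb1, hb2⟩
      · rcases (Nat.dvd_prime htp).1 hb with h | h
        · exact hlp.one_lt.ne' h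
        · omega
      · apply hAQ.fr t ht.1 l hb1
        exact (Nat.modEq_iff_dvd' htp.one_le).1 (by
          unfold Nat.ModEq
          rw [hb2, Nat.mod_eq_of_lt hlp.one_lt])) hne
  refine hsb.trans ?_
  have hGpos : 0 < ∑ e ∈ EE w z, Hw (bad Q) e := sum_pos (fun e he => Hw_pos hD he) hne
  have h2i : (1 : ℝ) ≤ 2 ^ i := one_le_pow₀ (by norm_num)
  have haR : (1 : ℝ) ≤ a := by exact_mod_cast ha1
  have t1 : ((2 ^ i + 1 : ℕ) : ℝ) / (∑ e ∈ EE w z, Hw (bad Q) e) ≤ 160 * a * 2 ^ i / (i * PiQ Q w) := by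
    rw [div_le_div_iff₀ hGpos (by positivity)]
    push_cast
    have h3 : (i : ℝ) / (20 * a) * Real.log 2 * PiQ Q w ≤ Real.log w * PiQ Q w :=
      mul_le_mul_of_nonneg_right hlogw_low (by linarith)
    have h4 : (i : ℝ) * PiQ Q w ≤ 80 * a * ∑ e ∈ EE w z, Hw (bad Q) e := by
      have hl2' := Real.log_two_gt_d9
      have h5 : (i : ℝ) / (20 * a) * Real.log 2 * PiQ Q w * (80 * a) ≤
          (2 * ∑ e ∈ EE w z, Hw (bad Q) e) * (80 * a) := by
        apply mul_le_mul_of_nonneg_right _ (by positivity)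
        linarith
      have h6 : (i : ℝ) / (20 * a) * Real.log 2 * PiQ Q w * (80 * a) =
          4 * Real.log 2 * (i * PiQ Q w) := by
        field_simp
        ring
      rw [h6] at h5
      have h7 : 0 ≤ (i : ℝ) * PiQ Q w := by positivity
      nlinarith
    have h8 : (2 : ℝ) ^ i + 1 ≤ 2 * 2 ^ i := by linarith
    calc ((2 : ℝ) ^ i + 1) * (i * PiQ Q w) ≤ (2 * 2 ^ i) * (80 * a * ∑ e ∈ EE w z, Hw (bad Q) e) :=
          mul_le_mul h8 h4 (by positivity) (by positivity)
      _ = _ := by ring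
  have t2 : 2 * (z : ℝ) ^ 4 ≤ 4 * 2 ^ i / (i * PiQ Q w) := by
    rw [le_div_iff₀ (by positivity)]
    have h3 : PiQ Q w ≤ z := by
      refine (PiS_le hQ w (by omega)).trans ?_
      have : w ≤ z := by
        rw [hw, hz]
        apply Nat.pow_le_pow_right (by norm_num)
        exact (Nat.le_mul_of_pos_left _ ha1).trans hjz
      exact_mod_cast this
    have h4 : (i : ℝ) ≤ 2 ^ (i / 2 + 1) := by
      have h5 : i / 2 + 1 ≤ 2 ^ (i / 2) := Nat.lt_two_pow_self
      have h6 : i ≤ 2 ^ (i / 2 + 1) := by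
        rw [pow_succ]
        omega
      exact_mod_cast h6
    have h5 : (z : ℝ) ^ 5 ≤ 2 ^ (i / 2) := by
      rw [hz]
      push_cast
      rw [← pow_mul]
      apply pow_le_pow_right₀ (by norm_num)
      omega
    have hz0 : (0 : ℝ) ≤ z := Nat.cast_nonneg z
    calc 2 * (z : ℝ) ^ 4 * (i * PiQ Q w) ≤ 2 * (z : ℝ) ^ 4 * (2 ^ (i / 2 + 1) * z) := by
          apply mul_le_mul_of_nonneg_left _ (by positivity)
          exact mul_le_mul h4 h3 (by linarith) (by positivity)
      _ = 4 * 2 ^ (i / 2) * (z : ℝ) ^ 5 := by rw [pow_succ]; ring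
      _ ≤ 4 * 2 ^ (i / 2) * 2 ^ (i / 2) := by
          apply mul_le_mul_of_nonneg_left h5 (by positivity)
      _ = 4 * 2 ^ (i / 2 + i / 2) := by rw [pow_add]; ring
      _ ≤ 4 * 2 ^ i := by
          apply mul_le_mul_of_nonneg_left _ (by norm_num)
          apply pow_le_pow_right₀ (by norm_num)
          omega
  calc _ ≤ 160 * a * 2 ^ i / (i * PiQ Q w) + 4 * 2 ^ i / (i * PiQ Q w) := add_le_add t1 t2
    _ = _ := by ring

end Pool.Agent.NH76.LT
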