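import Pool.Agent.NH76.LT.SvS
import Pool.Agent.TH76.LehP.Iter

set_option autoImplicit false

/-!
# `n / φ(n)` and `(n - 1) / φ(n - 1)` when `p - 1 ∣ n - 1` for all primes `p ∣ n`
-/

namespace Pool.Agent.NH76.LT

open Finset Pool.Agent.Helper403 Pool.Agent.NH3.LT

/-- the odd primes up to `W` that do not divide `m` -/
def SS (m W : ℕ) : Finset ℕ := (Icc 3 W).filter (fun q => q.Prime ∧ ¬ q ∣ m)

theorem mem_SS {m W q : ℕ} : q ∈ SS m W ↔ (3 ≤ q ∧ q ≤ W) ∧ q.Prime ∧ ¬ q ∣ m := by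
  unfold SS
  rw [mem_filter, mem_Icc]

theorem ratio_ge_one {m : ℕ} (hm : 1 ≤ m) : 1 ≤ (m : ℝ) / m.totient := by
  have h0 : (0 : ℝ) < m.totient := by exact_mod_cast Nat.totient_pos.2 (by omega)
  rw [le_div_iff₀ h0, one_mul]
  exact_mod_cast Nat.totient_le m

theorem ratio_ge_two {m : ℕ} (hm : 1 ≤ m) (h2 : 2 ∣ m) : 2 ≤ (m : ℝ) / m.totient := by
  have hmem : 2 ∈ m.primeFactors := Nat.mem_primeFactors.2 ⟨Nat.prime_two, h2, by omega⟩
  rw [ratio_eq hm, ← mul_prod_erase _ _ hmem]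
  have h1 : (1 : ℝ) ≤ ∏ p ∈ m.primeFactors.erase 2, (1 - 1 / (p : ℝ))⁻¹ := by
    apply Finset.one_le_prod
    intro p hp
    exact fac_ge (Nat.prime_of_mem_primeFactors (mem_of_mem_erase hp)).two_le
  have h3 : ((1 : ℝ) - 1 / ((2 : ℕ) : ℝ))⁻¹ = 2 := by norm_num
  rw [h3]
  linarith

/-- the primes not dividing `m` have a large product -/
theorem PiS_low {m W w : ℕ} (hm : 1 ≤ m) (h2 : 2 ∣ m) (hw : 1 ≤ w) (hwW : w ≤ W) :
    Real.log w ≤ PiQ (SS m W) w * ((m : ℝ) / m.totient) := by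
  refine (mert_lower w hw).trans ?_
  rw [← prod_filter_mul_prod_filter_not (PP w) (fun q => ¬ q ∣ m)]
  have hf : ∀ p ∈ PP w, (1 : ℝ) ≤ (1 - 1 / (p : ℝ))⁻¹ := fun p hp => fac_ge (mem_PP.1 hp).2.two_le
  have h3 : ∏ p ∈ (PP w).filter (fun q => ¬ q ∣ m), (1 - 1 / (p : ℝ))⁻¹ ≤ PiQ (SS m W) w := by
    unfold PiQ
    apply Finset.prod_le_prod_of_subset_of_one_le
    · intro p hp
      rw [mem_filter, mem_PP] at hp
      rw [mem_filter, mem_SS]
      have h4 := hp.1.2.two_le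
      have h5 : p ≠ 2 := by
        rintro rfl
        exact hp.2 h2
      exact ⟨⟨⟨by omega, hp.1.1.trans hwW⟩, hp.1.2, hp.2⟩, hp.1.1⟩
    · intro p hp
      have := hf p (mem_filter.1 hp).1
      linarith
    · intro p hp _
      rw [mem_filter, mem_SS] at hp
      exact fac_ge hp.1.2.1.two_le
  have h4 : ∏ p ∈ (PP w).filter (fun q => ¬ ¬ q ∣ m), (1 - 1 / (p : ℝ))⁻¹ ≤ (m : ℝ) / m.totient := by
    rw [ratio_eq hm]
    apply Finset.prod_le_prod_of_subset_of_one_le
    · intro p hp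
      rw [mem_filter, mem_PP, not_not] at hp
      exact Nat.mem_primeFactors.2 ⟨hp.1.2, hp.2, by omega⟩
    · intro p hp
      have := hf p (mem_filter.1 hp).1
      linarith
    · intro p hp _
      exact fac_ge (Nat.prime_of_mem_primeFactors hp).two_le
  apply mul_le_mul h3 h4
  · apply prod_nonneg
    intro p hp
    have := hf p (mem_filter.1 hp).1
    linarith
  · have : (1 : ℝ) ≤ PiQ (SS m W) w := by
      apply PiS_ge_one
      intro q hq
      rw [mem_SS] at hq
      exact ⟨hq.2.1, by omega⟩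
    linarith

/-- the sum of `1/p` over the large primes of `n` -/
theorem tail_sum : ∃ (C : ℝ) (B : ℕ), 1 ≤ C ∧ 1 ≤ B ∧ ∀ n : ℕ, 1 < n → 2 ∣ n - 1 →
    (∀ p ∈ n.primeFactors, p - 1 ∣ n - 1) → ∀ I : ℕ, B ≤ I →
    ∑ p ∈ n.primeFactors.filter (fun p => 2 ^ I < p), 1 / (p : ℝ) ≤
      C * (((n - 1 : ℕ) : ℝ) / (n - 1).totient) / I := by
  obtain ⟨C, B, hC, hB, hcount⟩ := sieve_countS
  refine ⟨8 * C * B, B, ?_, hB, ?_⟩
  · have : (1 : ℝ) ≤ B := by exact_mod_cast hB
    nlinarith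
  intro n hn h2 hp1 I hI
  obtain ⟨ρ, hρ⟩ : ∃ ρ : ℝ, ρ = ((n - 1 : ℕ) : ℝ) / (n - 1).totient := ⟨_, rfl⟩
  rw [← hρ]
  have hm1 : 1 ≤ n - 1 := by omega
  have hρ1 : 1 ≤ ρ := by rw [hρ]; exact ratio_ge_one hm1
  have hBR : (1 : ℝ) ≤ B := by exact_mod_cast hB
  have hI0 : 0 < I := by omega
  have hIR : (0 : ℝ) < I := by exact_mod_cast hI0
  have hcov : n.primeFactors.filter (fun p => 2 ^ I < p) ⊆ (Ioc I (max I n)).biUnion
      (fun i => n.primeFactors.filter (fun p => 2 ^ (i - 1) < p ∧ p ≤ 2 ^ i)) := by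
    intro p hp
    rw [mem_filter] at hp
    obtain ⟨hpQ, h1⟩ := hp
    have hp1 : 1 < p := (Nat.prime_of_mem_primeFactors hpQ).one_lt
    have hpn : p ≤ n := Nat.le_of_mem_primeFactors hpQ
    rw [mem_biUnion]
    refine ⟨Nat.clog 2 p, ?_, ?_⟩
    · rw [mem_Ioc]
      constructor
      · exact (Nat.lt_clog_iff_pow_lt (by norm_num)).2 h1
      · refine le_trans ?_ (le_max_right _ _)
        apply Nat.clog_le_of_le_pow
        exact hpn.trans Nat.lt_two_pow_self.le
    · rw [mem_filter]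
      refine ⟨hpQ, ?_, Nat.le_pow_clog (by norm_num) p⟩
      exact Nat.pow_pred_clog_lt_self (by norm_num) hp1
  calc ∑ p ∈ n.primeFactors.filter (fun p => 2 ^ I < p), 1 / (p : ℝ) ≤
      ∑ p ∈ (Ioc I (max I n)).biUnion
        (fun i => n.primeFactors.filter (fun p => 2 ^ (i - 1) < p ∧ p ≤ 2 ^ i)), 1 / (p : ℝ) :=
        sum_le_sum_of_subset_of_nonneg hcov (fun _ _ _ => by positivity)
    _ ≤ ∑ i ∈ Ioc I (max I n),
        ∑ p ∈ n.primeFactors.filter (fun p => 2 ^ (i - 1) < p ∧ p ≤ 2 ^ i), 1 / (p : ℝ) :=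
        sum_biUnion_le_sum _ _ _ (fun _ => by positivity)
    _ ≤ ∑ i ∈ Ioc I (max I n), 8 * C * B * ρ * ((i : ℝ) ^ 2)⁻¹ := by
        apply sum_le_sum
        intro i hi
        rw [mem_Ioc] at hi
        have hi0 : 0 < i := by omega
        have hiR : (0 : ℝ) < i := by exact_mod_cast hi0
        have hBi : B ≤ i := by omega
        have hfs : FreeS n.primeFactors (SS (n - 1) (2 ^ i)) := by
          constructor
          · exact fun p hp => Nat.prime_of_mem_primeFactors hp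
          · intro q hq
            rw [mem_SS] at hq
            exact ⟨hq.2.1, by omega⟩
          · intro p hp q hq hqp
            rw [mem_SS] at hq
            exact hq.2.2 (hqp.trans (hp1 p hp))
        have h1 := hcount _ _ hfs i hBi
        obtain ⟨Pw, hPw⟩ : ∃ Pw : ℝ, Pw = PiQ (SS (n - 1) (2 ^ i)) (2 ^ (i / B)) := ⟨_, rfl⟩
        rw [← hPw] at h1
        have hPw1 : 1 ≤ Pw := by
          rw [hPw]
          exact PiS_ge_one hfs.ps _
        have h2' := PiS_low (W := 2 ^ i) (w := 2 ^ (i / B)) hm1 h2 Nat.one_le_two_pow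
          (Nat.pow_le_pow_right (by norm_num) (Nat.div_le_self _ _))
        rw [← hPw, ← hρ] at h2'
        push_cast at h2'
        rw [Real.log_pow] at h2'
        have hl2 := Real.log_two_gt_d9
        have hdiv : (i : ℝ) / (2 * B) ≤ ((i / B : ℕ) : ℝ) := by
          rw [div_le_iff₀ (by linarith)]
          have h5 : i < (i / B + 1) * B := (Nat.div_lt_iff_lt_mul (by omega)).1 (Nat.lt_succ_self _)
          have h6 : 1 ≤ i / B := (Nat.one_le_div_iff (by omega)).2 hBi
          have h7 : i ≤ (i / B) * (2 * B) := by nlinarith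
          exact_mod_cast h7
        -- `i ≤ 4 B ρ Pw`
        have h8 : (i : ℝ) ≤ 4 * B * (Pw * ρ) := by
          have h9 : (i : ℝ) / (2 * B) * (1 / 2) ≤ Pw * ρ := by
            refine le_trans ?_ h2'
            apply mul_le_mul hdiv (by linarith) (by norm_num) (Nat.cast_nonneg _)
          rw [div_mul_eq_mul_div, div_le_iff₀ (by linarith)] at h9
          linarith
        have h3 : ∑ p ∈ n.primeFactors.filter (fun p => 2 ^ (i - 1) < p ∧ p ≤ 2 ^ i), 1 / (p : ℝ) ≤
            ∑ p ∈ n.primeFactors.filter (fun p => 2 ^ (i - 1) < p ∧ p ≤ 2 ^ i),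
              1 / (2 : ℝ) ^ (i - 1) := by
          apply sum_le_sum
          intro p hp
          rw [mem_filter] at hp
          have : (2 : ℝ) ^ (i - 1) ≤ p := by exact_mod_cast hp.2.1.le
          gcongr
        rw [sum_const, nsmul_eq_mul] at h3
        refine h3.trans ?_
        have e1 : (2 : ℝ) ^ i = 2 * 2 ^ (i - 1) := by
          rw [← pow_succ']
          congr 1
          omega
        rw [e1] at h1
        have hpow : (0 : ℝ) < 2 ^ (i - 1) := by positivity
        calc ((n.primeFactors.filter (fun p => 2 ^ (i - 1) < p ∧ p ≤ 2 ^ i)).card : ℝ) *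
            (1 / 2 ^ (i - 1)) ≤ C * (2 * 2 ^ (i - 1)) / (i * Pw) * (1 / 2 ^ (i - 1)) := by
              apply mul_le_mul_of_nonneg_right h1 (by positivity)
          _ = 2 * C / (i * Pw) := by
              have hne : (2 : ℝ) ^ (i - 1) ≠ 0 := by positivity
              field_simp
          _ ≤ 8 * C * B * ρ * ((i : ℝ) ^ 2)⁻¹ := by
              rw [← div_eq_mul_inv, div_le_div_iff₀ (by positivity) (by positivity)]
              calc 2 * C * (i : ℝ) ^ 2 = 2 * C * i * i := by ring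
                _ ≤ 2 * C * i * (4 * B * (Pw * ρ)) := by
                    apply mul_le_mul_of_nonneg_left h8 (by positivity)
                _ = 8 * C * B * ρ * (i * Pw) := by ring
    _ = 8 * C * B * ρ * ∑ i ∈ Ioc I (max I n), ((i : ℝ) ^ 2)⁻¹ := by rw [mul_sum]
    _ ≤ 8 * C * B * ρ * (I : ℝ)⁻¹ := by
        apply mul_le_mul_of_nonneg_left _ (by positivity)
        have h5 := sum_Ioc_inv_sq_le_sub (α := ℝ) (k := I) (n := max I n) (by omega) (le_max_left _ _)
        refine h5.trans ?_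
        have : (0 : ℝ) ≤ ((max I n : ℕ) : ℝ)⁻¹ := by positivity
        linarith
    _ = 8 * C * B * ρ / I := by rw [div_eq_mul_inv]

open Pool.Agent.TH76.LehP in
/-- **The inequality between the quotients of `n` and `n - 1`.** -/
theorem ratio_main : ∃ F : ℝ, 1 ≤ F ∧ ∀ n : ℕ, 2 < n → 2 ∣ n - 1 →
    (∀ p ∈ n.primeFactors, p - 1 ∣ n - 1) →
    (n : ℝ) / n.totient ≤ F * (1 + Real.log (1 +
      (((n - 1 : ℕ) : ℝ) / (n - 1).totient) / Real.log (n.minFac : ℝ))) := by
  obtain ⟨K, hK, hg⟩ := growth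
  obtain ⟨C, B, hC, hB, htail⟩ := tail_sum
  obtain ⟨K', hK'⟩ : ∃ K' : ℝ, K' = max K 1 := ⟨_, rfl⟩
  have hK'1 : 1 ≤ K' := by rw [hK']; exact le_max_right _ _
  have hKK' : K ≤ K' := by rw [hK']; exact le_max_left _ _
  refine ⟨K' * Real.exp (2 * C + 1) * ((B : ℝ) + 2), ?_, ?_⟩
  · have h1 : 1 ≤ Real.exp (2 * C + 1) := Real.one_le_exp (by linarith)
    have h2 : (0 : ℝ) ≤ B := Nat.cast_nonneg B
    have h3 : 1 ≤ K' * Real.exp (2 * C + 1) := by nlinarith
    nlinarith
  intro n hn h2 hp1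
  obtain ⟨ρ, hρ⟩ : ∃ ρ : ℝ, ρ = ((n - 1 : ℕ) : ℝ) / (n - 1).totient := ⟨_, rfl⟩
  have ht := htail n (by omega) h2 hp1
  rw [← hρ] at ht ⊢
  have hρ2 : 2 ≤ ρ := by rw [hρ]; exact ratio_ge_two (by omega) h2
  set S := n.primeFactors with hS
  have hSodd : OddP S := by
    intro r hr
    have hrp := Nat.prime_of_mem_primeFactors hr
    refine ⟨hrp, ?_⟩
    have h3 : r ≠ 2 := by
      rintro rfl
      have := Nat.dvd_of_mem_primeFactors hr
      omega
    have := hrp.two_le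
    omega
  have hgood : Good S := by
    intro p hp q hq _ hqp hqp1
    have h3 := hqp1.trans (hp1 p hp)
    have h4 := Nat.dvd_of_mem_primeFactors hq
    have h5 := (Nat.dvd_sub h4 h3)
    rw [Nat.sub_sub_self (by omega)] at h5
    exact hqp.one_lt.ne' (Nat.dvd_one.1 h5)
  set p := n.minFac with hp
  have hpp : p.Prime := Nat.minFac_prime (by omega)
  have hp2 := hpp.two_le
  have hp2' : (2 : ℝ) ≤ p := by exact_mod_cast hp2
  have hlp : 0 < Real.log p := Real.log_pos (by linarith)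
  have hmin : ∀ q ∈ S, p ≤ q := fun q hq =>
    Nat.minFac_le_of_dvd (Nat.prime_of_mem_primeFactors hq).two_le (Nat.dvd_of_mem_primeFactors hq)
  obtain ⟨u, hu⟩ : ∃ u : ℝ, u = ρ / Real.log p := ⟨_, rfl⟩
  have hu0 : 0 ≤ u := by rw [hu]; positivity
  rw [← hu]
  have hl1u : 0 ≤ Real.log (1 + u) := Real.log_nonneg (by linarith)
  obtain ⟨J, hJ⟩ : ∃ J : ℕ, J = ⌈Real.log (1 + u)⌉₊ := ⟨_, rfl⟩
  have hJ1 : Real.log (1 + u) ≤ J := by rw [hJ]; exact Nat.le_ceil _
  have hJ2 : (J : ℝ) < Real.log (1 + u) + 1 := by rw [hJ]; exact Nat.ceil_lt_add_one hl1u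
  set x := p ^ (32 ^ (J + B)) with hx
  have hx2 : 2 ^ (32 ^ (J + B)) ≤ x := Nat.pow_le_pow_left hp2 _
  have hx0 : x ≠ 0 := by positivity
  obtain ⟨I, hI⟩ : ∃ I : ℕ, I = Nat.log 2 x := ⟨_, rfl⟩
  have hIx : 2 ^ I ≤ x := by rw [hI]; exact Nat.pow_log_le_self 2 hx0
  have hIx2 : x < 2 ^ (I + 1) := by rw [hI]; exact Nat.lt_pow_succ_log_self (by norm_num) x
  have hIlow : 32 ^ (J + B) ≤ I := by
    rw [hI]
    exact Nat.le_log_of_pow_le (by norm_num) hx2
  have hBI : B ≤ I := by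
    have h3 : B ≤ 32 ^ B := (Nat.lt_pow_self (by norm_num)).le
    have h4 : 32 ^ B ≤ 32 ^ (J + B) := Nat.pow_le_pow_right (by norm_num) (by omega)
    omega
  have hI1 : 1 ≤ I := by omega
  have hIR : (1 : ℝ) ≤ I := by exact_mod_cast hI1
  have h3 := ht I hBI
  -- `ρ ≤ 2 I`
  have hρI : ρ ≤ 2 * I := by
    have h4 : u ≤ (32 : ℝ) ^ J := by
      have h5 : 1 + u ≤ Real.exp J := by
        rw [← Real.exp_log (by linarith : (0 : ℝ) < 1 + u)]
        exact Real.exp_le_exp.mpr hJ1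
      have h6 : Real.exp J ≤ (32 : ℝ) ^ J := by
        have h7 : Real.exp (J : ℝ) = (Real.exp 1) ^ J := by rw [← Real.exp_nat_mul, mul_one]
        rw [h7]
        apply pow_le_pow_left₀ (Real.exp_pos 1).le
        have := Real.exp_one_lt_d9
        linarith
      linarith
    have h5 : (32 : ℝ) ^ J ≤ (32 : ℝ) ^ (J + B) := pow_le_pow_right₀ (by norm_num) (by omega)
    have h6 : Real.log (x : ℝ) ≤ Real.log ((2 : ℝ) ^ (I + 1)) := by
      apply Real.log_le_log
      · exact_mod_cast Nat.pos_of_ne_zero hx0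
      · exact_mod_cast hIx2.le
    rw [hx] at h6
    push_cast at h6
    rw [Real.log_pow, Real.log_pow] at h6
    push_cast at h6
    have h7 : ρ = u * Real.log p := by rw [hu]; field_simp
    have h8 : u * Real.log p ≤ (32 : ℝ) ^ (J + B) * Real.log p :=
      mul_le_mul_of_nonneg_right (h4.trans h5) hlp.le
    have h9 := Real.log_two_lt_d9
    nlinarith
  have h4 : ∑ q ∈ S.filter (fun q => 2 ^ I < q), 1 / (q : ℝ) ≤ 2 * C := by
    refine h3.trans ?_
    rw [div_le_iff₀ (by linarith)]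
    nlinarith
  have h5 : ∑ q ∈ S, 1 / (q : ℝ) ≤ FS S x + 2 * C := by
    rw [← Finset.sum_filter_add_sum_filter_not S (fun q => q ≤ 2 ^ I)]
    apply add_le_add
    · exact FS_mono S hIx
    · refine le_trans (le_of_eq ?_) h4
      apply sum_congr _ (fun _ _ => rfl)
      apply filter_congr
      intro q _
      exact not_le
  have htot : (0 : ℝ) < n.totient := by exact_mod_cast Nat.totient_pos.mpr (by omega)
  have hn0 : (0 : ℝ) < n := by exact_mod_cast (by omega : 0 < n)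
  have h6 := log_ratio_le (by omega : n ≠ 0)
  have h7 : ∀ q ∈ S, 1 / ((q : ℝ) - 1) = 1 / (q : ℝ) + 1 / ((q : ℝ) * ((q : ℝ) - 1)) := by
    intro q hq'
    have hq2 : (2 : ℝ) ≤ q := by exact_mod_cast (Nat.prime_of_mem_primeFactors hq').two_le
    have : (q : ℝ) - 1 ≠ 0 := by linarith
    field_simp
    ring
  rw [Finset.sum_congr rfl h7, Finset.sum_add_distrib] at h6
  have h8 := tele_le 1 le_rfl S (fun q hq => (Nat.prime_of_mem_primeFactors hq).one_lt)
  have h9 : Real.log ((n : ℝ) / n.totient) ≤ FS S x + (2 * C + 1) := by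
    push_cast at h8
    linarith
  have h10 := hg S hSodd hgood p hp2 hmin (J + B)
  have h11 : (n : ℝ) / n.totient ≤ Real.exp (FS S x) * Real.exp (2 * C + 1) := by
    rw [← Real.exp_add, ← Real.exp_log (show 0 < (n : ℝ) / n.totient by positivity)]
    exact Real.exp_le_exp.2 h9
  have hB0 : (0 : ℝ) ≤ B := Nat.cast_nonneg B
  calc (n : ℝ) / n.totient ≤ Real.exp (FS S x) * Real.exp (2 * C + 1) := h11
    _ ≤ (K * (1 + ((J + B : ℕ) : ℝ))) * Real.exp (2 * C + 1) :=
        mul_le_mul_of_nonneg_right h10 (Real.exp_pos _).le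
    _ ≤ (K' * (1 + ((J + B : ℕ) : ℝ))) * Real.exp (2 * C + 1) := by
        apply mul_le_mul_of_nonneg_right _ (Real.exp_pos _).le
        apply mul_le_mul_of_nonneg_right hKK'
        positivity
    _ = K' * Real.exp (2 * C + 1) * (1 + (J + B)) := by push_cast; ring
    _ ≤ K' * Real.exp (2 * C + 1) * (((B : ℝ) + 2) * (1 + Real.log (1 + u))) := by
        apply mul_le_mul_of_nonneg_left _ (by positivity)
        nlinarith
    _ = _ := by ring

open Pool.Agent.TH76.LehP in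
/-- the quotient of `n - 1` is at least a constant times the logarithm of the least prime of `n` -/
theorem rho_low : ∃ c : ℝ, 0 < c ∧ ∀ n : ℕ, 2 < n → 2 ∣ n - 1 →
    (∀ p ∈ n.primeFactors, p - 1 ∣ n - 1) → 2 ≤ (n : ℝ) / n.totient →
    c * Real.log (n.minFac : ℝ) ≤ ((n - 1 : ℕ) : ℝ) / (n - 1).totient := by
  obtain ⟨C, B, hC, hB, htail⟩ := tail_sum
  have hBR : (1 : ℝ) ≤ B := by exact_mod_cast hB
  refine ⟨1 / (8 * C * B), by positivity, ?_⟩
  intro n hn h2 hp1 hn2
  obtain ⟨ρ, hρ⟩ : ∃ ρ : ℝ, ρ = ((n - 1 : ℕ) : ℝ) / (n - 1).totient := ⟨_, rfl⟩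
  have ht := htail n (by omega) h2 hp1
  rw [← hρ] at ht ⊢
  have hρ2 : 2 ≤ ρ := by rw [hρ]; exact ratio_ge_two (by omega) h2
  set p := n.minFac with hp
  have hpp : p.Prime := Nat.minFac_prime (by omega)
  have hp2 := hpp.two_le
  have hp2' : (2 : ℝ) ≤ p := by exact_mod_cast hp2
  have hlp : 0 < Real.log p := Real.log_pos (by linarith)
  have hl2 := Real.log_two_lt_d9
  have hl2' := Real.log_two_gt_d9
  obtain ⟨I, hI⟩ : ∃ I : ℕ, I = Nat.log 2 (p - 1) := ⟨_, rfl⟩
  have hIx : 2 ^ I ≤ p - 1 := by rw [hI]; exact Nat.pow_log_le_self 2 (by omega)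
  have hIx2 : p - 1 < 2 ^ (I + 1) := by rw [hI]; exact Nat.lt_pow_succ_log_self (by norm_num) _
  have hlogp : Real.log p ≤ (I + 1) * Real.log 2 := by
    have h3 : Real.log (p : ℝ) ≤ Real.log ((2 : ℝ) ^ (I + 1)) := by
      apply Real.log_le_log (by linarith)
      have : p ≤ 2 ^ (I + 1) := by omega
      exact_mod_cast this
    rw [Real.log_pow] at h3
    push_cast at h3
    exact h3
  rw [one_div, inv_mul_le_iff₀ (by positivity)]
  rcases Nat.lt_or_ge I B with hIB | hIB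
  · have h3 : (I : ℝ) + 1 ≤ B := by exact_mod_cast hIB
    have h4 : Real.log p ≤ B := by nlinarith
    have h5 : (B : ℝ) ≤ 8 * C * B := by nlinarith
    nlinarith
  · have h3 := ht I hIB
    have hI1 : (1 : ℝ) ≤ I := by
      have : 1 ≤ I := by omega
      exact_mod_cast this
    have htot : (0 : ℝ) < n.totient := by exact_mod_cast Nat.totient_pos.mpr (by omega)
    have h6 := log_ratio_le (by omega : n ≠ 0)
    have h7 : ∑ q ∈ n.primeFactors, 1 / ((q : ℝ) - 1) ≤
        2 * ∑ q ∈ n.primeFactors.filter (fun q => 2 ^ I < q), 1 / (q : ℝ) := by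
      have e1 : n.primeFactors.filter (fun q => 2 ^ I < q) = n.primeFactors := by
        apply filter_true_of_mem
        intro q hq
        have h8 : p ≤ q := Nat.minFac_le_of_dvd (Nat.prime_of_mem_primeFactors hq).two_le
          (Nat.dvd_of_mem_primeFactors hq)
        omega
      rw [e1, mul_sum]
      apply sum_le_sum
      intro q hq
      have hq2 : (2 : ℝ) ≤ q := by exact_mod_cast (Nat.prime_of_mem_primeFactors hq).two_le
      rw [mul_one_div, div_le_div_iff₀ (by linarith) (by linarith)]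
      linarith
    have h8 := Real.log_le_log (by norm_num) hn2
    have h9 : 1 / 2 ≤ 2 * (C * ρ / I) := by linarith
    rw [← mul_div_assoc, le_div_iff₀ (by linarith)] at h9
    have h10 : Real.log p ≤ 2 * I := by nlinarith
    have h11 : (2 : ℝ) * I ≤ 8 * C * ρ := by linarith
    have h12 : 8 * C * ρ ≤ 8 * C * B * ρ := by
      have : 0 ≤ C * ρ := by positivity
      nlinarith
    linarith

end Pool.Agent.NH76.LT
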